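import Pool.Agent.H705.RO.Stm4

/-! # Primes in progressions with random phases: from the grid to all `x` (helper93 for helper705) -/

set_option autoImplicit false

namespace Pool.Agent.H93.RO

open MeasureTheory ProbabilityTheory Filter Topology Finset
open Pool.Agent.H705.RO

lemma rh_ne (γ : ℝ) : rh γ ≠ 0 := by
  intro h
  have := congrArg Complex.re h
  simp [rh] at this

lemma pow_lip (γ : ℝ) {x x' : ℝ} (hx : 1 ≤ x) (hx' : 1 ≤ x') :
    ‖(x' : ℂ) ^ (rh γ) / rh γ - (x : ℂ) ^ (rh γ) / rh γ‖ ≤ |x' - x| := by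
  have hd : ∀ t ∈ Set.Ici (1 : ℝ), HasDerivWithinAt (fun t : ℝ => (t : ℂ) ^ (rh γ) / rh γ)
      ((t : ℂ) ^ (rh γ - 1)) (Set.Ici 1) t := by
    intro t ht
    have ht0 : t ≠ 0 := by
      have : (1 : ℝ) ≤ t := ht
      linarith
    have h1 := (hasDerivAt_ofReal_cpow_const (x := t) ht0 (r := rh γ) (rh_ne γ)).div_const (rh γ)
    rw [mul_div_cancel_left₀ _ (rh_ne γ)] at h1
    exact h1.hasDerivWithinAt
  have hb : ∀ t ∈ Set.Ici (1 : ℝ), ‖(t : ℂ) ^ (rh γ - 1)‖ ≤ 1 := by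
    intro t ht
    have ht1 : (1 : ℝ) ≤ t := ht
    rw [Complex.norm_cpow_eq_rpow_re_of_pos (by linarith)]
    refine Real.rpow_le_one_of_one_le_of_nonpos ht1 ?_
    simp [rh]
    norm_num
  have h2 := Convex.norm_image_sub_le_of_norm_hasDerivWithin_le (f := fun t : ℝ => (t : ℂ) ^ (rh γ) / rh γ)
    hd hb (convex_Ici 1) (x := x) (y := x') hx hx'
  rwa [one_mul, Real.norm_eq_abs] at h2

lemma tz_lip (γ : ℝ) {b : ℂ} (hb : ‖b‖ ≤ 1) {x x' : ℝ} (hx : 1 ≤ x) (hx' : 1 ≤ x') (v : ℝ) :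
    |tz γ b x v - tz γ b x' v| ≤ 2 * |x' - x| := by
  have h1 : tz γ b x v - tz γ b x' v =
      2 * (b * ((x : ℂ) ^ (rh γ) / rh γ - (x' : ℂ) ^ (rh γ) / rh γ) *
        Complex.exp (2 * (Real.pi : ℂ) * Complex.I * (v : ℂ))).re := by
    unfold tz
    rw [← mul_sub, ← Complex.sub_re]
    congr 2
    ring
  rw [h1, abs_mul, abs_of_pos (by norm_num : (0 : ℝ) < 2)]
  refine mul_le_mul_of_nonneg_left ?_ (by norm_num)
  refine (Complex.abs_re_le_norm _).trans ?_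
  have he : ‖Complex.exp (2 * (Real.pi : ℂ) * Complex.I * (v : ℂ))‖ = 1 := by
    have : 2 * (Real.pi : ℂ) * Complex.I * (v : ℂ) = ((2 * Real.pi * v : ℝ) : ℂ) * Complex.I := by
      push_cast
      ring
    rw [this, Complex.norm_exp_ofReal_mul_I]
  rw [norm_mul, norm_mul, he, mul_one]
  have h2 := pow_lip γ hx' hx
  rw [abs_sub_comm] at h2
  calc ‖b‖ * ‖(x : ℂ) ^ (rh γ) / rh γ - (x' : ℂ) ^ (rh γ) / rh γ‖ ≤ 1 * |x' - x| :=
        mul_le_mul hb h2 (norm_nonneg _) (by norm_num)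
    _ = |x' - x| := one_mul _

theorem T_BLD : P_BLD := by
  intro d γ f y q b j l M D hd hdq hq hb hD hM1 hM2 hgrid x hx1 hx2
  have h2j : (1 : ℝ) ≤ 2 ^ j := one_le_pow₀ (by norm_num)
  have hx0 : 1 ≤ x := h2j.trans hx1
  have h8 : (0 : ℝ) < 8 ^ (j + l) := by positivity
  have h81 : (1 : ℝ) ≤ 8 ^ (j + l) := one_le_pow₀ (by norm_num)
  have hdpos : (0 : ℝ) < d q := by exact_mod_cast hd
  obtain ⟨i, hi⟩ : ∃ i : ℕ, i = ⌈x * 8 ^ (j + l)⌉₊ := ⟨_, rfl⟩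
  have hi1 : x * 8 ^ (j + l) ≤ i := by rw [hi]; exact Nat.le_ceil _
  have hi2 : (i : ℝ) < x * 8 ^ (j + l) + 1 := by
    rw [hi]; exact Nat.ceil_lt_add_one (by positivity)
  have hi3 : (i : ℝ) ≤ 2 ^ (j + 1) * 8 ^ (j + l) := by
    have h1 : i ≤ 2 ^ (j + 1) * 8 ^ (j + l) := by
      rw [hi, Nat.ceil_le]
      push_cast
      exact mul_le_mul_of_nonneg_right hx2 h8.le
    exact_mod_cast h1
  obtain ⟨x', hx'⟩ : ∃ x' : ℝ, x' = (i : ℝ) / 8 ^ (j + l) := ⟨_, rfl⟩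
  have hxx' : x ≤ x' := by rw [hx', le_div_iff₀ h8]; exact hi1
  have hx'2 : x' ≤ 2 ^ (j + 1) := by rw [hx', div_le_iff₀ h8]; exact hi3
  have hx'3 : x' ≤ x + 1 / 8 ^ (j + l) := by
    rw [hx', div_le_iff₀ h8, add_mul, div_mul_cancel₀ _ h8.ne']
    exact hi2.le
  have hx'4 : x' ≤ 2 * x := by
    have : 1 / (8 : ℝ) ^ (j + l) ≤ 1 := by rw [div_le_one h8]; exact h81
    linarith
  have hg := hgrid i x' hx' (hx1.trans hxx') hx'2
  -- the difference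
  have hdiff : |bz d γ f y q b (Ico (2 ^ l - 1) M) x - bz d γ f y q b (Ico (2 ^ l - 1) M) x'| ≤
      2 * 2 ^ l / 8 ^ (j + l) := by
    unfold bz
    rw [← sub_div, abs_div, abs_of_pos hdpos, div_le_iff₀ hdpos, ← Finset.sum_sub_distrib]
    refine (Finset.abs_sum_le_sum_abs _ _).trans ?_
    have h1 : ∀ n ∈ Ico (2 ^ l - 1) M, |∑ i ∈ range (d q), tz (γ q i n) (b i) x (y (f q i n)).2 -
        ∑ i ∈ range (d q), tz (γ q i n) (b i) x' (y (f q i n)).2| ≤ (d q : ℝ) * (2 / 8 ^ (j + l)) := by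
      intro n _
      rw [← Finset.sum_sub_distrib]
      refine (Finset.abs_sum_le_sum_abs _ _).trans ?_
      have h2 : ∀ i ∈ range (d q), |tz (γ q i n) (b i) x (y (f q i n)).2 -
          tz (γ q i n) (b i) x' (y (f q i n)).2| ≤ 2 / 8 ^ (j + l) := by
        intro i _
        refine (tz_lip _ (hb i) hx0 (hx0.trans hxx') _).trans ?_
        rw [abs_of_nonneg (by linarith)]
        calc 2 * (x' - x) ≤ 2 * (1 / 8 ^ (j + l)) := by linarith
          _ = 2 / 8 ^ (j + l) := by ring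
      refine (Finset.sum_le_sum h2).trans ?_
      rw [Finset.sum_const, card_range, nsmul_eq_mul]
    refine (Finset.sum_le_sum h1).trans ?_
    rw [Finset.sum_const, nsmul_eq_mul, Nat.card_Ico]
    have h3 : M - (2 ^ l - 1) ≤ 2 ^ l := by
      have h4 : 2 ^ (l + 1) = 2 ^ l + 2 ^ l := by ring
      have h5 : 1 ≤ 2 ^ l := Nat.one_le_two_pow
      omega
    have h6 : ((M - (2 ^ l - 1) : ℕ) : ℝ) ≤ 2 ^ l := by exact_mod_cast h3
    calc ((M - (2 ^ l - 1) : ℕ) : ℝ) * ((d q : ℝ) * (2 / 8 ^ (j + l)))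
        ≤ 2 ^ l * ((d q : ℝ) * (2 / 8 ^ (j + l))) :=
          mul_le_mul_of_nonneg_right h6 (by positivity)
      _ = 2 * 2 ^ l / 8 ^ (j + l) * d q := by ring
  -- the size of the bound
  obtain ⟨Y, hY⟩ : ∃ Y : ℝ, Y = x * ((j : ℝ) + l + 4) ^ 3 / (2 ^ l * d q) := ⟨_, rfl⟩
  have hL : (4 : ℝ) ≤ (j : ℝ) + l + 4 := by
    have h1 : (0 : ℝ) ≤ j := Nat.cast_nonneg j
    have h2 : (0 : ℝ) ≤ l := Nat.cast_nonneg l
    linarith
  have hL3 : (64 : ℝ) ≤ ((j : ℝ) + l + 4) ^ 3 := by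
    calc (64 : ℝ) = 4 ^ 3 := by norm_num
      _ ≤ _ := pow_le_pow_left₀ (by norm_num) hL 3
  have hY0 : 0 ≤ Y := by rw [hY]; positivity
  have h2l : (1 : ℝ) ≤ 2 ^ l := one_le_pow₀ (by norm_num)
  have hYl : (1 / 2 ^ l : ℝ) ^ 2 ≤ Y := by
    rw [hY, le_div_iff₀ (by positivity)]
    have h1 : (d q : ℝ) ≤ 2 * x := by
      have h2 : (d q : ℝ) ≤ 2 ^ (j + 1) := by exact_mod_cast hdq.trans hq
      have h3 : (2 : ℝ) ^ (j + 1) = 2 * 2 ^ j := by ring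
      linarith
    have h4 : (1 / 2 ^ l : ℝ) ^ 2 * (2 ^ l * d q) = (1 / 2 ^ l) * d q := by
      field_simp
    rw [h4]
    calc (1 / 2 ^ l : ℝ) * d q ≤ 1 * d q := by
          refine mul_le_mul_of_nonneg_right ?_ hdpos.le
          rw [div_le_one (by positivity)]
          exact h2l
      _ ≤ x * 64 := by linarith
      _ ≤ x * ((j : ℝ) + l + 4) ^ 3 := mul_le_mul_of_nonneg_left hL3 (by linarith)
  have hs : 1 / 2 ^ l ≤ Real.sqrt Y := by
    refine Real.le_sqrt_of_sq_le hYl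
  have hd1 : (2 * 2 ^ l / 8 ^ (j + l) : ℝ) ≤ 4 * Real.sqrt Y := by
    have h1 : (2 * 2 ^ l / 8 ^ (j + l) : ℝ) ≤ 2 * 2 ^ l / 8 ^ l := by
      refine div_le_div_of_nonneg_left (by positivity) (by positivity) ?_
      exact pow_le_pow_right₀ (by norm_num) (by omega)
    have h2 : (2 * 2 ^ l / 8 ^ l : ℝ) ≤ 4 * (1 / 2 ^ l) := by
      have h3 : (8 : ℝ) ^ l = 2 ^ l * 2 ^ l * 2 ^ l := by
        rw [← mul_pow, ← mul_pow]
        norm_num
      rw [h3, div_le_iff₀ (by positivity)]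
      have h4 : (4 * (1 / 2 ^ l) * (2 ^ l * 2 ^ l * 2 ^ l) : ℝ) = 4 * 2 ^ l * 2 ^ l := by
        field_simp
      rw [h4]
      nlinarith
    linarith
  have hg2 : |bz d γ f y q b (Ico (2 ^ l - 1) M) x'| ≤ 2 * D * Real.sqrt Y := by
    refine hg.trans ?_
    have h1 : D ^ 2 * x' * ((j : ℝ) + l + 4) ^ 3 / (2 ^ l * d q) ≤ (2 * D) ^ 2 * Y := by
      rw [hY, ← mul_div_assoc]
      refine div_le_div_of_nonneg_right ?_ (by positivity)
      have h2 : D ^ 2 * x' ≤ (2 * D) ^ 2 * x := by nlinarith [sq_nonneg D]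
      calc D ^ 2 * x' * ((j : ℝ) + l + 4) ^ 3 ≤ (2 * D) ^ 2 * x * ((j : ℝ) + l + 4) ^ 3 :=
            mul_le_mul_of_nonneg_right h2 (by positivity)
        _ = (2 * D) ^ 2 * (x * ((j : ℝ) + l + 4) ^ 3) := by ring
    refine (Real.sqrt_le_sqrt h1).trans ?_
    rw [Real.sqrt_mul (sq_nonneg _), Real.sqrt_sq (by linarith)]
  have hfin : Real.sqrt ((2 * D + 4) ^ 2 * x * ((j : ℝ) + l + 4) ^ 3 / (2 ^ l * d q)) =
      (2 * D + 4) * Real.sqrt Y := by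
    have h1 : (2 * D + 4) ^ 2 * x * ((j : ℝ) + l + 4) ^ 3 / (2 ^ l * d q) = (2 * D + 4) ^ 2 * Y := by
      rw [hY]
      ring
    rw [h1, Real.sqrt_mul (sq_nonneg _), Real.sqrt_sq (by linarith)]
  rw [hfin]
  have htri : |bz d γ f y q b (Ico (2 ^ l - 1) M) x| ≤
      |bz d γ f y q b (Ico (2 ^ l - 1) M) x - bz d γ f y q b (Ico (2 ^ l - 1) M) x'| +
        |bz d γ f y q b (Ico (2 ^ l - 1) M) x'| := by
    have := abs_add_le (bz d γ f y q b (Ico (2 ^ l - 1) M) x - bz d γ f y q b (Ico (2 ^ l - 1) M) x')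
      (bz d γ f y q b (Ico (2 ^ l - 1) M) x')
    simpa using this
  linarith

end Pool.Agent.H93.RO
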